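import Mathlib

set_option autoImplicit false
set_option linter.unusedSectionVars false

namespace Pool.Agent.H.MP_dc0135_an

open MeasureTheory Set Filter Topology DomMulAct
open scoped ENNReal

/-- pairing of an integrable class with a bounded measurable function -/
noncomputable def pair {X : Type} [MeasurableSpace X] (μ : Measure X) (θ : X → ℂ)
    (h : MemLp θ ∞ μ) : Lp ℂ 1 μ →L[ℂ] ℂ :=
  ((ContinuousLinearMap.mul ℂ ℂ).lpPairing μ 1 ∞).flip (h.toLp θ)

theorem pair_eq {X : Type} [MeasurableSpace X] (μ : Measure X) (θ : X → ℂ) (h : MemLp θ ∞ μ)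
    (f : Lp ℂ 1 μ) : pair μ θ h f = ∫ x, f x * θ x ∂μ := by
  rw [pair, ContinuousLinearMap.flip_apply, ContinuousLinearMap.lpPairing_eq_integral]
  exact integral_congr_ae (h.coeFn_toLp.mono fun x hx => by simp [hx])

variable {G K : Type} [Group G] [TopologicalSpace G] [IsTopologicalGroup G] [LocallyCompactSpace G]
  [SecondCountableTopology G] [MeasurableSpace G] [BorelSpace G] (μ : Measure G) [μ.IsHaarMeasure]

theorem tr_cont (f : Lp ℂ 1 μ) : Continuous fun g : G => mk g⁻¹ • f :=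
  have : Fact ((1 : ℝ≥0∞) ≠ ∞) := ⟨by simp⟩
  (continuous_mk.comp continuous_inv).smul continuous_const

theorem tr_ae (g : G) (f : Lp ℂ 1 μ) : ∀ᵐ x ∂μ, (mk g⁻¹ • f : Lp ℂ 1 μ) x = f (g⁻¹ * x) :=
  smul_Lp_ae_eq (mk g⁻¹) f

theorem conv_ae (h f : Lp ℂ 1 μ) :
    (∫ g, h g • mk g⁻¹ • f ∂μ : Lp ℂ 1 μ) =ᵐ[μ] fun x => ∫ y, h y * f (y⁻¹ * x) ∂μ := by
  have i1 : Integrable (fun z : G × G => h z.1 * f (z.1⁻¹ * z.2)) (μ.prod μ) :=
    (measurePreserving_prod_inv_mul μ μ).integrable_comp_of_integrable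
      ((L1.integrable_coeFn h).mul_prod (L1.integrable_coeFn f))
  refine Integrable.ae_eq_of_forall_setIntegral_eq _ _ (L1.integrable_coeFn _)
    i1.integral_prod_right fun s hs _ => ?_
  have m : MemLp (s.indicator fun _ => (1 : ℂ)) ∞ μ := (memLp_top_const _).indicator hs
  have e : ∀ u : G → ℂ, ∫ x in s, u x ∂μ = ∫ x, u x * s.indicator (fun _ => 1) x ∂μ := fun u => by
    simp only [← integral_indicator hs, ← indicator_mul_right, mul_one]
  rw [e, ← pair_eq μ _ m, ← ContinuousLinearMap.integral_comp_comm,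
    ← integral_integral_swap (f := fun y x => h y * f (y⁻¹ * x))
      (i1.mono_measure (by gcongr; exact Measure.restrict_le_self))]
  · refine integral_congr_ae (.of_forall fun y => ?_)
    simp only [map_smul, pair_eq, smul_eq_mul, ← integral_const_mul, e]
    exact integral_congr_ae ((tr_ae μ y f).mono fun x hx => by simp only [hx, mul_assoc])
  · exact ((L1.integrable_coeFn h).norm.mul_const ‖f‖).mono'
      ((Lp.aestronglyMeasurable h).smul (tr_cont μ f).aestronglyMeasurable)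
      (.of_forall fun g => by simp [norm_smul])

variable [TopologicalSpace K] [CompactSpace K] [MeasurableSpace K] [BorelSpace K]
  (ν : Measure K) [IsFiniteMeasure ν] [MulAction G K] [ContinuousSMul G K] (o : K)

theorem bd {X : Type} [TopologicalSpace X] [MeasurableSpace X] [BorelSpace X]
    (ρ : Measure X) (φ : C(K, ℂ)) {p : X → K} (hp : Continuous p) : MemLp (fun x => φ (p x)) ∞ ρ :=
  memLp_top_of_bound (φ.continuous.comp hp).measurable.aestronglyMeasurable ‖φ‖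
    (.of_forall fun _ => φ.norm_coe_le_norm _)

/-- pairs of an integrable function and a continuous version of its push-forward -/
noncomputable def S : Submodule ℂ (Lp ℂ 1 μ × C(K, ℂ)) :=
  ⨅ φ : C(K, ℂ), ((pair μ (fun g => φ (g • o)) (bd μ φ (by fun_prop))).comp
    (ContinuousLinearMap.fst _ _ _) - (pair ν φ (bd ν φ continuous_id)).comp
    ((ContinuousMap.toLp 1 ν ℂ).comp (ContinuousLinearMap.snd _ _ _))).ker

theorem mem_S (p : Lp ℂ 1 μ × C(K, ℂ)) : p ∈ S μ ν o ↔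
    ∀ φ : C(K, ℂ), ∫ g, p.1 g * φ (g • o) ∂μ = ∫ k, p.2 k * φ k ∂ν := by
  simp only [S, Submodule.mem_iInf, LinearMap.mem_ker, ContinuousLinearMap.coe_coe, sub_apply,
    ContinuousLinearMap.comp_apply, pair_eq, sub_eq_zero, ContinuousLinearMap.coe_fst',
    ContinuousLinearMap.coe_snd']
  refine forall_congr' fun φ => Eq.congr_right (integral_congr_ae ?_)
  exact (ContinuousMap.coeFn_toLp (p := 1) (𝕜 := ℂ) ν p.2).mono fun x hx => congrArg (· * φ x) hx

instance : CompleteSpace (S μ ν o) := IsClosed.completeSpace_coe (hs := by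
  rw [S, Submodule.coe_iInf]
  exact isClosed_iInter fun φ => ContinuousLinearMap.isClosed_ker _)

/-- first coordinate -/
noncomputable def inc : S μ ν o →L[ℂ] Lp ℂ 1 μ :=
  (ContinuousLinearMap.fst _ _ _).comp (S μ ν o).subtypeL

theorem inc_le (s : S μ ν o) : ‖inc μ ν o s‖ ≤ ‖s‖ := norm_fst_le s.1

theorem inc_inj [ν.IsOpenPosMeasure] : Function.Injective (inc μ ν o) := by
  refine (injective_iff_map_eq_zero _).2 fun s hs => Subtype.ext (Prod.ext hs ?_)
  have := (mem_S μ ν o _).1 s.2 (star s.1.2)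
  rw [show s.1.1 = 0 from hs, integral_congr_ae (g := fun _ => 0)
    ((Lp.coeFn_zero ℂ 1 μ).mono fun x hx => by simp only [hx, Pi.zero_apply, zero_mul]),
    integral_zero] at this
  simp only [ContinuousMap.star_apply, RCLike.star_def, Complex.mul_conj, integral_complex_ofReal,
    Complex.ofReal_eq_zero, eq_comm (a := (0 : ℂ))] at this
  ext k
  exact Complex.normSq_eq_zero.1 (by_contra fun hk =>
    (Continuous.integral_pos_of_hasCompactSupport_nonneg_nonzero (by fun_prop)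
      (HasCompactSupport.of_compactSpace _) (fun _ => Complex.normSq_nonneg _) hk).ne' this)

variable [SMulInvariantMeasure G K ν]

theorem L_mem (g : G) (s : S μ ν o) :
    (mk g⁻¹ • s.1.1, s.1.2.comp ⟨(g⁻¹ • ·), by fun_prop⟩) ∈ S μ ν o :=
  (mem_S μ ν o _).2 fun φ => by
    have := (mem_S μ ν o _).1 s.2 (φ.comp ⟨(g • ·), by fun_prop⟩)
    rw [← integral_mul_left_eq_self _ g⁻¹, ← integral_smul_eq_self (μ := ν) _ (g := g⁻¹)] at this
    simp only [ContinuousMap.comp_apply, ContinuousMap.coe_mk, mul_smul, smul_inv_smul] at this ⊢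
    exact (integral_congr_ae ((tr_ae μ g s.1.1).mono fun x hx => by simp only [hx])).trans this

/-- translation -/
noncomputable def L (g : G) : S μ ν o →L[ℂ] S μ ν o :=
  (((Lp.compMeasurePreservingₗᵢ ℂ _ (measurePreserving_smul g⁻¹ μ)).toContinuousLinearMap.prodMap
    (ContinuousMap.compCLM ℂ ℂ ⟨(g⁻¹ • ·), by fun_prop⟩)).comp (S μ ν o).subtypeL).codRestrict _
    (L_mem μ ν o g)

theorem inc_L (g : G) (s : S μ ν o) : inc μ ν o (L μ ν o g s) = mk g⁻¹ • inc μ ν o s := rfl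

theorem L_mul (g h : G) (s : S μ ν o) : L μ ν o (g * h) s = L μ ν o g (L μ ν o h s) :=
  Subtype.ext (Prod.ext (by
    change mk (g * h)⁻¹ • s.1.1 = mk g⁻¹ • mk h⁻¹ • s.1.1
    rw [smul_smul, mul_inv_rev, DomMulAct.mk_mul]) (ContinuousMap.ext fun k => by
    change s.1.2 ((g * h)⁻¹ • k) = s.1.2 (h⁻¹ • g⁻¹ • k)
    rw [mul_inv_rev, mul_smul]))

theorem L_one (s : S μ ν o) : L μ ν o (1 : G) s = s :=
  Subtype.ext (Prod.ext (by
    change mk (1 : G)⁻¹ • s.1.1 = _
    rw [inv_one, mk_one, one_smul]) (ContinuousMap.ext fun k => by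
    change s.1.2 ((1 : G)⁻¹ • k) = _
    rw [inv_one, one_smul]))

theorem L_norm (g : G) (s : S μ ν o) : ‖L μ ν o g s‖ = ‖s‖ := by
  have : ∀ (g : G) s, ‖L μ ν o g s‖ ≤ ‖s‖ := fun g s => max_le_max (norm_smul_Lp _ _).le
    ((ContinuousMap.norm_le _ (norm_nonneg _)).2 fun k => s.1.2.norm_coe_le_norm _)
  refine (this g s).antisymm ((this g⁻¹ _).trans_eq' ?_)
  rw [← L_mul, inv_mul_cancel, L_one]

theorem L_cont (s : S μ ν o) : Continuous fun g : G => L μ ν o g s :=
  ((tr_cont μ _).prodMk (ContinuousMap.continuous_of_continuous_uncurry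
    (fun g : G => s.1.2.comp ⟨(g⁻¹ • ·), by fun_prop⟩)
    (s.1.2.continuous.comp (continuous_fst.inv.smul continuous_snd)))).subtype_mk _

theorem L_int (h : Lp ℂ 1 μ) (s : S μ ν o) : Integrable (fun g => h g • L μ ν o g s) μ :=
  ((L1.integrable_coeFn h).norm.mul_const ‖s‖).mono'
    ((Lp.aestronglyMeasurable h).smul (L_cont μ ν o s).aestronglyMeasurable)
    (.of_forall fun g => by simp only [norm_smul, L_norm, le_rfl])

/-- convolution -/
noncomputable def cv : Lp ℂ 1 μ →L[ℂ] S μ ν o →L[ℂ] S μ ν o :=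
  LinearMap.mkContinuous₂ (LinearMap.mk₂ ℂ (fun h s => ∫ g, h g • L μ ν o g s ∂μ)
    (fun a b s => (integral_congr_ae ((Lp.coeFn_add a b).mono fun x hx => by
      simp only [hx, add_smul, Pi.add_apply])).trans (integral_add (L_int μ ν o a s) (L_int μ ν o b s)))
    (fun c a s => (integral_congr_ae ((Lp.coeFn_smul c a).mono fun x hx => by
      simp only [hx, Pi.smul_apply, smul_assoc])).trans (integral_smul c _))
    (fun a s t => by simp only [map_add, smul_add, integral_add (L_int μ ν o a s) (L_int μ ν o a t)])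
    fun c a s => by simp only [map_smul, smul_comm _ c, integral_smul]) 1 fun h s =>
    (norm_integral_le_integral_norm _).trans (by
      simp only [norm_smul, L_norm, integral_mul_const, L1.norm_eq_integral_norm, one_mul, le_rfl])

theorem cv_eq (h : Lp ℂ 1 μ) (s : S μ ν o) : cv μ ν o h s = ∫ g, h g • L μ ν o g s ∂μ := rfl

theorem cv_le (h : Lp ℂ 1 μ) (s : S μ ν o) : ‖cv μ ν o h s‖ ≤ ‖h‖ * ‖s‖ :=
  (norm_integral_le_integral_norm _).trans (by
    simp only [norm_smul, L_norm, integral_mul_const, L1.norm_eq_integral_norm, le_rfl])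

theorem map_cv {F : Type} [NormedAddCommGroup F] [NormedSpace ℂ F] [CompleteSpace F]
    (T : S μ ν o →L[ℂ] F) (h : Lp ℂ 1 μ) (s : S μ ν o) :
    T (cv μ ν o h s) = ∫ g, h g • T (L μ ν o g s) ∂μ := by
  simp only [cv_eq, ← T.integral_comp_comm (L_int μ ν o h s), map_smul]

theorem inc_cv (h : Lp ℂ 1 μ) (s : S μ ν o) :
    inc μ ν o (cv μ ν o h s) =ᵐ[μ] fun x => ∫ y, h y * inc μ ν o s (y⁻¹ * x) ∂μ :=
  by rw [map_cv]; exact conv_ae μ h (inc μ ν o s)

theorem assoc (h : Lp ℂ 1 μ) (a c : S μ ν o) :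
    cv μ ν o (inc μ ν o (cv μ ν o h a)) c = cv μ ν o h (cv μ ν o (inc μ ν o a) c) := by
  refine (map_cv μ ν o (((cv μ ν o).flip c).comp (inc μ ν o)) h a).trans
    (integral_congr_ae (.of_forall fun g => congrArg (h g • ·) ?_))
  rw [map_cv, ← integral_mul_left_eq_self _ g⁻¹]
  refine integral_congr_ae ((tr_ae μ g (inc μ ν o a)).mono fun x hx => ?_)
  simp only [← L_mul, mul_inv_cancel_left, ← hx]
  rfl

theorem nodiag (f : S μ ν o) (f1 : 1 ≤ ‖f.1.2 o‖)
    (f2 : ∀ ψ : C(K, ℂ), ∫ g, f.1.1 g * ψ (g⁻¹ • o) ∂μ = 0) (a b : ℕ → S μ ν o)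
    (hs : Summable fun n => ‖a n‖ * ‖b n‖)
    (h1 : ∀ B : S μ ν o →L[ℂ] S μ ν o →L[ℂ] ℂ, (∀ x y, ‖B x y‖ ≤ ‖x‖ * ‖y‖) → ‖∑' n,
      (B (cv μ ν o (inc μ ν o f) (a n)) (b n) - B (a n) (cv μ ν o (inc μ ν o (b n)) f))‖ ≤ 1 / 3)
    (h2 : ‖cv μ ν o (inc μ ν o (∑' n, cv μ ν o (inc μ ν o (a n)) (b n))) f - f‖ ≤ 1 / 3) : False := by
  let φ : S μ ν o →L[ℂ] ℂ := (ContinuousMap.evalCLM ℂ o).comp
    ((ContinuousLinearMap.snd _ _ _).comp (S μ ν o).subtypeL)
  have p1 : ∀ s, ‖φ s‖ ≤ ‖s‖ := fun s => (s.1.2.norm_coe_le_norm o).trans (norm_snd_le s.1)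
  have p2 : ∀ a b, ‖cv μ ν o (inc μ ν o a) b‖ ≤ ‖a‖ * ‖b‖ := fun a b =>
    (cv_le μ ν o _ b).trans (by gcongr; exact inc_le μ ν o a)
  have p3 : ∀ s, φ (cv μ ν o (inc μ ν o f) s) = 0 := fun s => (map_cv μ ν o φ _ s).trans (f2 s.1.2)
  have := h1 ((ContinuousLinearMap.compL ℂ _ _ _ φ).comp ((cv μ ν o).comp (inc μ ν o)))
    fun a b => (p1 _).trans (p2 a b)
  simp only [ContinuousLinearMap.comp_apply, ContinuousLinearMap.compL_apply, assoc, p3, zero_sub,
    tsum_neg, norm_neg] at this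
  have e := ((φ.comp (((cv μ ν o).flip f).comp (inc μ ν o))).map_tsum
    (Summable.of_norm_bounded hs fun n => p2 (a n) (b n)))
  simp only [ContinuousLinearMap.comp_apply, ContinuousLinearMap.flip_apply, assoc] at e
  have h3 := (p1 _).trans h2
  rw [map_sub, e, norm_sub_rev] at h3
  have h4 : 1 ≤ ‖φ f‖ := f1
  linarith [norm_sub_norm_le (φ f) (∑' n, φ (cv μ ν o (inc μ ν o (a n))
    (cv μ ν o (inc μ ν o (b n)) f)))]

end Pool.Agent.H.MP_dc0135_an
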