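import Pool.Agent.H.MP_dc0135_an.A

set_option autoImplicit false

namespace Pool.Agent.H.MP_dc0135_an

open MeasureTheory Set Filter Topology
open scoped ENNReal Pointwise

/-- compact part -/
abbrev K : Type := ZMod 2 × (ℕ → ZMod 2)
/-- discrete part -/
def D : Type := ℕ →₀ ZMod 2

noncomputable instance : AddCommGroup D := inferInstanceAs (AddCommGroup (_ →₀ _))
noncomputable instance : Module (ZMod 2) D := inferInstanceAs (Module _ (_ →₀ _))
instance : Countable D := inferInstanceAs (Countable (_ →₀ _))
instance : TopologicalSpace D := ⊥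
instance : DiscreteTopology D := ⟨rfl⟩
instance : MeasurableSpace D := borel D
instance : BorelSpace D := ⟨rfl⟩
instance : IsTopologicalAddGroup D where
  continuous_add := continuous_of_discreteTopology
  continuous_neg := continuous_of_discreteTopology
instance : IsFiniteMeasureOnCompacts (Measure.count : Measure D) :=
  ⟨fun _ h => Measure.count_apply_lt_top.2 h.finite_of_discrete⟩
instance : (Measure.count : Measure D).IsOpenPosMeasure := ⟨fun _ _ => Measure.count_ne_zero⟩

/-- the pairing -/
noncomputable def β : D →ₗ[ZMod 2] (ℕ → ZMod 2) →L[ZMod 2] ZMod 2 :=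
  Finsupp.linearCombination (ZMod 2) fun i => ContinuousLinearMap.proj i

/-- basis vector -/
noncomputable def sg (i : ℕ) : D := Finsupp.single i 1

theorem β_sg (i : ℕ) (t : ℕ → ZMod 2) : β (sg i) t = t i :=
  DFunLike.congr_fun (show β (sg i) = ContinuousLinearMap.proj i from
    (Finsupp.linearCombination_single _ _ _).trans (one_smul _ _)) t

/-- shear -/
noncomputable def A (x : D) : K →+ K where
  toFun k := (k.1 + β x k.2, k.2)
  map_zero' := by simp
  map_add' a b := Prod.ext (by
    change a.1 + b.1 + β x (a.2 + b.2) = a.1 + β x a.2 + (b.1 + β x b.2)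
    rw [map_add]
    ring) rfl

theorem A_add (x y : D) (k : K) : A (x + y) k = A x (A y k) := Prod.ext (by
  change k.1 + β (x + y) k.2 = k.1 + β y k.2 + β x k.2
  rw [map_add, add_apply]
  ring) rfl

theorem A_zero (k : K) : A 0 k = k := Prod.ext (by
  change k.1 + β 0 k.2 = k.1
  simp) rfl

theorem A_cont {X : Type} [TopologicalSpace X] {x : X → D} {k : X → K} (hx : Continuous x)
    (hk : Continuous k) : Continuous fun p => A (x p) (k p) :=
  have : Continuous fun p : D × (ℕ → ZMod 2) => β p.1 p.2 :=
    continuous_prod_of_discrete_left.2 fun x => (β x).continuous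
  show Continuous fun p => ((k p).1 + β (x p) (k p).2, (k p).2) from
    (hk.fst.add (this.comp (hx.prodMk hk.snd) :)).prodMk hk.snd

/-- the group -/
abbrev G : Type := K × D

noncomputable instance : Mul G := ⟨fun g h => (g.1 + A g.2 h.1, g.2 + h.2)⟩
noncomputable instance : One G := ⟨(0, 0)⟩
noncomputable instance : Inv G := ⟨fun g => (-A (-g.2) g.1, -g.2)⟩
noncomputable instance : Group G := .ofLeftAxioms
  (fun a b c => Prod.ext (by
    change a.1 + A a.2 b.1 + A (a.2 + b.2) c.1 = a.1 + A a.2 (b.1 + A b.2 c.1)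
    rw [map_add, A_add, add_assoc]) (add_assoc _ _ _))
  (fun a => Prod.ext ((zero_add _).trans (A_zero _)) (zero_add _))
  fun _ => Prod.ext (neg_add_cancel _) (neg_add_cancel _)
instance : IsTopologicalGroup G where
  continuous_mul := (continuous_fst.fst.add (A_cont continuous_fst.snd
    continuous_snd.fst)).prodMk (continuous_fst.snd.add continuous_snd.snd)
  continuous_inv := (A_cont continuous_snd.neg continuous_fst).neg.prodMk
    continuous_snd.neg

noncomputable instance : MulAction G K where
  smul g k := g.1 + A g.2 k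
  one_smul k := (zero_add _).trans (A_zero _)
  mul_smul a b c := by
    change a.1 + A a.2 b.1 + A (a.2 + b.2) c = a.1 + A a.2 (b.1 + A b.2 c)
    rw [map_add, A_add, add_assoc]

instance : ContinuousSMul G K :=
  ⟨continuous_fst.fst.add (A_cont continuous_fst.snd continuous_snd)⟩

theorem smul_o (g : G) : g • (0 : K) = g.1 := by
  change g.1 + A g.2 0 = _
  rw [map_zero, add_zero]

/-- Haar measure of the compact part -/
noncomputable abbrev ν : Measure K := Measure.addHaar

theorem mp (g : G) : MeasurePreserving (g • · : K → K) ν ν :=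
  (measurePreserving_add_left ν g.1).comp ((A g.2).measurePreserving
    (A_cont continuous_const continuous_id)
    (fun k => ⟨A (-g.2) k, by rw [← A_add, add_neg_cancel, A_zero]⟩) rfl)

instance : SMulInvariantMeasure G K ν :=
  ⟨fun g _ hs => (mp g).measure_preimage hs.nullMeasurableSet⟩

/-- Haar measure of the group -/
noncomputable def μ : Measure G := ν.prod Measure.count

instance : μ.IsHaarMeasure where
  lt_top_of_isCompact := fun _ h => h.measure_lt_top (μ := ν.prod Measure.count)
  map_mul_left_eq_self g := ((mp g).prod (measurePreserving_add_left Measure.count g.2)).map_eq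
  open_pos := fun _ h => h.measure_ne_zero (ν.prod Measure.count)

theorem folner (C : Set G) (hC : IsCompact C) :
    ∃ U : Set G, IsCompact U ∧ 0 < μ U ∧ ∀ g ∈ C, g • U = U := by
  have h := (hC.image continuous_snd).finite_of_discrete
  let P := Submodule.span (ZMod 2) (Prod.snd '' C)
  have : Module.Finite (ZMod 2) P := Module.Finite.span_of_finite _ h
  have : Finite P := Module.finite_of_finite (ZMod 2)
  refine ⟨univ ×ˢ P, isCompact_univ.prod (toFinite _).isCompact,
    (isOpen_univ.prod (isOpen_discrete _)).measure_pos μ ⟨1, trivial, P.zero_mem⟩, fun g hg => ?_⟩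
  have m : g.2 ∈ P := Submodule.subset_span ⟨g, hg, rfl⟩
  ext x
  rw [mem_smul_set_iff_inv_smul_mem]
  exact and_congr Iff.rfl (P.add_mem_iff_right (P.neg_mem m))

theorem graph {j : K → D} (hj : Measurable j) :
    MeasurableSet {g : G | g.2 = j g.1} ∧ MeasurableEmbedding (fun k => ((k, j k) : G)) ∧
      μ.restrict {g : G | g.2 = j g.1} = ν.map fun k => ((k, j k) : G) := by
  have m : MeasurableSet {g : G | g.2 = j g.1} :=
    measurableSet_eq_fun measurable_snd (hj.comp measurable_fst)
  have m' : Measurable fun k => ((k, j k) : G) := measurable_id.prodMk hj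
  refine ⟨m, .of_measurable_inverse (g := Prod.fst) m' ?_ measurable_fst fun _ => rfl, ?_⟩
  · convert m
    ext g
    exact ⟨by rintro ⟨k, rfl⟩; rfl, fun h => ⟨g.1, Prod.ext rfl h.symm⟩⟩
  · ext s hs
    rw [Measure.restrict_apply hs, Measure.map_apply m' hs, μ, Measure.prod_apply (hs.inter m),
      ← lintegral_indicator_one (m' hs)]
    refine lintegral_congr fun k => ?_
    by_cases h : ((k, j k) : G) ∈ s
    · rw [indicator_of_mem (by exact h), Pi.one_apply, ← Measure.count_singleton (j k)]
      congr 1
      ext x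
      exact ⟨fun a => a.2, by rintro rfl; exact ⟨h, rfl⟩⟩
    · rw [indicator_of_notMem (by exact h), ← measure_empty (μ := (Measure.count : Measure D))]
      congr 1
      exact eq_empty_of_forall_notMem fun x a => h (by obtain ⟨a, rfl : x = j k⟩ := a; exact a)

theorem gint {j : K → D} (hj : Measurable j) (F : G → ℂ) :
    ∫ g, {g : G | g.2 = j g.1}.indicator F g ∂μ = ∫ k, F (k, j k) ∂ν := by
  obtain ⟨a, b, c⟩ := graph hj
  rw [integral_indicator a, c, b.integral_map]

theorem gi {j : K → D} (hj : Measurable j) {F : G → ℂ} (hF : Continuous F) {M : ℝ}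
    (hM : ∀ g, ‖F g‖ ≤ M) : Integrable ({g : G | g.2 = j g.1}.indicator F) μ := by
  obtain ⟨a, b, c⟩ := graph hj
  rw [integrable_indicator_iff a, IntegrableOn, c]
  exact .of_bound hF.aestronglyMeasurable M (.of_forall hM)

theorem memS {F : G → ℂ} (hF : Integrable F μ) (ψ : C(K, ℂ))
    (h : ∀ φ : C(K, ℂ), ∫ g, F g * φ g.1 ∂μ = ∫ k, ψ k * φ k ∂ν) : (hF.toL1 F, ψ) ∈ S μ ν 0 :=
  (mem_S _ _ _ _).2 fun φ => (integral_congr_ae (hF.coeFn_toL1.mono fun x hx => by
    simp only [hx, smul_o])).trans (h φ)

theorem dense : DenseRange (inc μ ν (0 : K)) := by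
  classical
  have : μ.Regular := .of_sigmaCompactSpace_of_isLocallyFiniteMeasure _
  refine Metric.denseRange_iff.2 fun f ε hε => ?_
  obtain ⟨F, h1, h2, h3, h4⟩ :=
    (L1.integrable_coeFn f).exists_hasCompactSupport_integral_sub_le (half_pos hε)
  obtain ⟨X, hX⟩ := (h1.image continuous_snd).finite_of_discrete.exists_finset_coe
  have c : ∀ x : D, Continuous fun k : K => F (k, x) := fun x => h3.comp (Continuous.prodMk_left x)
  refine ⟨⟨_, memS h4 (∑ x ∈ X, ⟨_, c x⟩) fun φ => ?_⟩, lt_of_le_of_lt ?_ (half_lt_self hε)⟩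
  · have c' : Continuous fun g : G => F g * φ g.1 := h3.mul (φ.continuous.comp continuous_fst)
    obtain ⟨M, hM⟩ := c'.bounded_above_of_compact_support h1.mul_right
    simp only [ContinuousMap.sum_apply, ContinuousMap.coe_mk, Finset.sum_mul]
    rw [integral_finsetSum (f := fun x k => F (k, x) * φ k) _ fun x _ =>
      ((c x).mul φ.continuous).integrable_of_hasCompactSupport (HasCompactSupport.of_compactSpace _), ← Finset.sum_congr rfl fun x _ =>
      gint (j := fun _ => x) measurable_const fun g => F g * φ g.1,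
      ← integral_finsetSum _ fun x _ => gi measurable_const c' hM]
    refine integral_congr_ae (.of_forall fun g => ?_)
    simp only [indicator_apply, mem_ofPred_eq, Finset.sum_ite_eq]
    split_ifs with h
    · rfl
    · rw [image_eq_zero_of_notMem_tsupport (f := F) (x := g) fun k => h (by
        rw [← Finset.mem_coe, hX]; exact ⟨g, k, rfl⟩), zero_mul]
  · rw [L1.dist_eq_integral_dist]
    refine (integral_congr_ae (h4.coeFn_toL1.mono fun x hx => ?_)).trans_le h2
    exact (dist_eq_norm _ _).trans (congrArg (‖f x - ·‖) hx)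

theorem bad : ∃ f : S μ ν (0 : K), 1 ≤ ‖f.1.2 0‖ ∧
    ∀ ψ : C(K, ℂ), ∫ g, f.1.1 g * ψ (g⁻¹ • (0 : K)) ∂μ = 0 := by
  classical
  let χ : C(K, ℂ) := ⟨fun k => if k.1 = 0 then 1 else -1,
    (continuous_of_discreteTopology (f := fun y : ZMod 2 => if y = 0 then (1 : ℂ) else -1)).comp
      continuous_fst⟩
  have ex : ∀ k : K, ∃ i, k.2 i = 1 ∨ k.2 = 0 := fun k => by
    by_cases h : k.2 = 0
    · exact ⟨0, .inr h⟩
    · obtain ⟨i, hi⟩ := Function.ne_iff.1 h
      exact ⟨i, .inl ((by decide : ∀ y : ZMod 2, y ≠ 0 → y = 1) _ hi)⟩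
  let j : K → D := fun k => sg (Nat.find (ex k))
  have hj : Measurable j := (measurable_of_countable sg).comp
    (measurable_find ex fun i => ((isClosed_eq ((continuous_apply i).comp continuous_snd)
      continuous_const).union (isClosed_eq continuous_snd continuous_const)).measurableSet)
  let e : K := (1, 0)
  have j1 : ∀ᵐ k ∂ν, A (-j k) k = k - e := by
    have : (𝓝[≠] (0 : K)).NeBot := ⟨fun h =>
      have := discreteTopology_of_isOpen_singleton_zero ((isOpen_singleton_iff_punctured_nhds _).2 h)
      have : Finite K := finite_of_compact_of_discrete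
      not_finite K⟩
    filter_upwards [compl_mem_ae_iff.2 (Finite.measure_zero (s := univ ×ˢ {0})
      (finite_univ.prod (finite_singleton _)) ν)] with k hk
    refine Prod.ext ?_ (sub_zero _).symm
    change k.1 + β (-sg _) k.2 = k.1 - 1
    rw [map_neg, neg_apply, β_sg, sub_eq_add_neg,
      (Nat.find_spec (ex k)).resolve_right fun h => hk ⟨trivial, h⟩]
  have key : ∀ θ : G → ℂ, Continuous θ → ∀ M, (∀ g, ‖θ g‖ ≤ M) → ∫ g,
      ({g : G | g.2 = 0}.indicator (fun g => χ g.1) g +
        {g : G | g.2 = j g.1}.indicator (fun g => χ g.1) g) * θ g ∂μ =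
      ∫ k, χ k * θ (k, 0) ∂ν + ∫ k, χ k * θ (k, j k) ∂ν := fun θ c M hM => by
    have c' : Continuous fun g : G => χ g.1 * θ g := (χ.continuous.comp continuous_fst).mul c
    have b : ∀ g : G, ‖χ g.1 * θ g‖ ≤ ‖χ‖ * M := fun g =>
      norm_mul_le_of_le (χ.norm_coe_le_norm _) (hM g)
    simp only [add_mul, ← indicator_mul_left]
    rw [integral_add (gi measurable_const c' b) (gi hj c' b), gint measurable_const, gint hj]
  have c0 := χ.continuous.comp (continuous_fst (X := K) (Y := D))
  have i := (gi (j := fun _ => 0) measurable_const c0 fun g => χ.norm_coe_le_norm _).add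
    (gi hj c0 fun g => χ.norm_coe_le_norm _)
  refine ⟨⟨_, memS i (χ + χ) fun φ => ?_⟩, ?_, fun ψ => ?_⟩
  · have : Integrable (fun k => χ k * φ k) ν := (χ * φ).continuous.integrable_of_hasCompactSupport
      (HasCompactSupport.of_compactSpace _)
    refine (key _ (φ.continuous.comp continuous_fst) _ fun g => φ.norm_coe_le_norm _).trans ?_
    simp only [ContinuousMap.add_apply, add_mul, integral_add this this]
    rfl
  · change 1 ≤ ‖(if (0 : ZMod 2) = 0 then (1 : ℂ) else -1) + if (0 : ZMod 2) = 0 then 1 else -1‖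
    norm_num
  · refine (integral_congr_ae (i.coeFn_toL1.mono fun x hx => congrArg (· * _) hx)).trans
      ((key (fun g => ψ (g⁻¹ • (0 : K))) (by fun_prop) _ fun g => ψ.norm_coe_le_norm _).trans ?_)
    simp only [smul_o]
    change ∫ k, χ k * ψ (-A (-0) k) ∂ν + ∫ k, χ k * ψ (-A (-j k) k) ∂ν = 0
    rw [integral_congr_ae (j1.mono fun k hk => congrArg (fun z => χ k * ψ (-z)) hk),
      ← integral_add_right_eq_self (fun k => χ k * ψ (-(k - e))) e, add_eq_zero_iff_eq_neg,
      ← integral_neg]
    refine integral_congr_ae (.of_forall fun k => ?_)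
    simp only [neg_zero, A_zero, add_sub_cancel_right, ← neg_mul]
    congr 1
    change (if k.1 = 0 then (1 : ℂ) else -1) = -if k.1 + 1 = 0 then 1 else -1
    rcases (by decide : ∀ y : ZMod 2, y = 0 ∧ y + 1 ≠ 0 ∨ y ≠ 0 ∧ y + 1 = 0) k.1 with h | h <;>
      simp [h]

end Pool.Agent.H.MP_dc0135_an
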